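import Pool.Agent.Helper669_lm.Final

set_option autoImplicit false

open Polynomial

namespace Pool.Agent.Results.MP_87bea5_an.OddDegree

open Helper669.LM

/-- No sequence of odd polynomial degree is a Legendre multiplier sequence: for every real
polynomial `Q` of odd degree the sequence `Q(0), Q(1), Q(2), ...` is not a Legendre multiplier
sequence. -/
theorem result : ∀ Q : ℝ[X], Odd Q.natDegree →
    ¬ IsLegendreMultiplier (fun k => Q.eval (k : ℝ)) :=
  main

end Pool.Agent.Results.MP_87bea5_an.OddDegree
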